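import Pool.Agent.Run7.h95.NT.Trans

/-!
# Limit laws for families of finite sets of prime numbers dividing a random natural number
-/

set_option autoImplicit false

namespace Run7.h95.NT

open NumberField IsDedekindDomain Finset Filter Topology Pool.Agent.H691R3 Pool.Agent.TH876.Loc
open Run7.h283.UE Run7.h283.MO Run7.h95.IP

variable {ι : Type}

/-- the members all of whose primes divide `m` -/
def V (A : ι → Finset ℕ) (m : ℕ) : Set ι := {i | ∀ p ∈ A i, p ∣ m}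

/-- the product of the primes of a tuple -/
noncomputable def rr (A : ι → Finset ℕ) {k : ℕ} (x : Fin k → ι) : ℕ :=
  ∏ p ∈ (Finset.univ.biUnion fun i => A (x i)), p

variable {A : ι → Finset ℕ}

theorem V_eq (hA : ∀ i, ∀ p ∈ A i, p.Prime) (m : ℕ) : V A m = U (fun i => toPr (A i)) (mk m) := by
  ext i
  exact (toPr_dvd (hA i)).symm

theorem un_toPr {k : ℕ} (x : Fin k → ι) :
    un (fun i => toPr (A i)) x = toPr (Finset.univ.biUnion fun i => A (x i)) := by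
  classical
  ext v
  rw [mem_un, mem_toPr]
  constructor
  · rintro ⟨i, hi⟩
    obtain ⟨p, hp, hpp, h⟩ := mem_toPr.1 hi
    exact ⟨p, Finset.mem_biUnion.2 ⟨i, Finset.mem_univ _, hp⟩, hpp, h⟩
  · rintro ⟨p, hp, hpp, h⟩
    obtain ⟨i, -, hi⟩ := Finset.mem_biUnion.1 hp
    exact ⟨i, mem_toPr.2 ⟨p, hi, hpp, h⟩⟩

theorem nn_un (hA : ∀ i, ∀ p ∈ A i, p.Prime) {k : ℕ} (x : Fin k → ι) :
    nn (un (fun i => toPr (A i)) x) = (rr A x : ℝ) := by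
  classical
  rw [un_toPr, nn_toPr]
  · unfold rr
    congr!
  · intro p hp
    obtain ⟨i, -, hi⟩ := Finset.mem_biUnion.1 hp
    exact hA _ p hi

open Classical in
/-- **the package** -/
theorem pack (hA : ∀ i, ∀ p ∈ A i, p.Prime) {θ c₁ c₂ X₀ C : ℝ} (hθ0 : 0 < θ) (hθ1 : θ < 1)
    (hc₁ : 0 < c₁) (hc₂ : 0 < c₂) (hC : 1 ≤ C)
    (hlow : ∀ X : ℝ, X₀ ≤ X → ∃ F : Finset ι, (∀ i ∈ F, ((∏ p ∈ A i, p : ℕ) : ℝ) ≤ X) ∧
      c₁ * X ^ θ ≤ F.card)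
    (hup : ∀ X : ℝ, 1 ≤ X → ∀ F : Finset ι, (∀ i ∈ F, ((∏ p ∈ A i, p : ℕ) : ℝ) ≤ X) →
      (F.card : ℝ) ≤ c₂ * X ^ θ)
    (hunit : ∀ T : Finset ℕ, (∀ p ∈ T, p.Prime) → ∀ F : Finset ι, (∀ i ∈ F, A i ⊆ T) →
      (F.card : ℝ) ≤ C ^ (T.card + 1)) :
    (∀ m : ℕ, 1 ≤ m → (V A m).Finite) ∧
    (∀ k : ℕ, 1 ≤ k → ∀ δ : ℝ, 0 < δ → ∃ D : ℝ, ∀ X : ℝ, 1 ≤ X →
      {x : Fin k → ι | (rr A x : ℝ) ≤ X}.Finite ∧
      ({x : Fin k → ι | (rr A x : ℝ) ≤ X}.ncard : ℝ) ≤ D * X ^ (1 - (1 - θ) / (k : ℝ) + δ)) ∧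
    (∀ k : ℕ, 1 ≤ k → (Summable fun x : Fin k → ι => ((rr A x : ℕ) : ℝ)⁻¹) ∧
      Tendsto (fun N : ℕ => (∑ m ∈ Finset.Icc 1 N, ((V A m).ncard : ℝ) ^ k) / (N : ℝ))
        atTop (𝓝 (∑' x : Fin k → ι, ((rr A x : ℕ) : ℝ)⁻¹))) ∧
    (∃ w : Finset ι → ℝ, (∀ F, 0 ≤ w F) ∧ HasSum w 1 ∧
      (∀ k : ℕ, 1 ≤ k → HasSum (fun F : Finset ι => (F.card : ℝ) ^ k * w F)
        (∑' x : Fin k → ι, ((rr A x : ℕ) : ℝ)⁻¹)) ∧
      ∀ Φ : Set (Set ι), NatDens (fun m => V A m ∈ Φ)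
        (∑' F : Finset ι, if (F : Set ι) ∈ Φ then w F else 0)) ∧
    (∃ D : ℝ, ∀ Z : ℝ, ∀ N : ℕ, 1 ≤ Z → 1 ≤ N →
      ({m : ℕ | 1 ≤ m ∧ m ≤ N ∧ ∃ i ∈ V A m, Z < ((∏ p ∈ A i, p : ℕ) : ℝ)}.ncard : ℝ) ≤
        D * Z ^ (-(1 - θ)) * N) ∧
    (∀ δ : ℝ, 0 < δ → ∃ c : ℝ, 0 < c ∧ ∀ Z : ℝ, 1 ≤ Z → ∃ τ : ℝ,
      NatDens (fun m => ∃ i ∈ V A m, Z < ((∏ p ∈ A i, p : ℕ) : ℝ)) τ ∧
        c * Z ^ (-(1 - θ) - δ) ≤ τ) ∧
    (∀ (g : ι → ℝ) (ψ : ℕ → ℝ), Tendsto ψ atTop atTop →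
      NatDens (fun m => ∃ i ∈ V A m, ψ m < g i) 0) := by
  obtain ⟨S, hS⟩ : ∃ S : ι → Finset (Pr ℚ), S = fun i => toPr (A i) := ⟨_, rfl⟩
  have hnn : ∀ i, nn (S i) = ((∏ p ∈ A i, p : ℕ) : ℝ) := fun i => by
    rw [hS]
    exact nn_toPr (hA i)
  have hV : ∀ m, V A m = U S (mk m) := fun m => by rw [hS, V_eq hA]
  have hun : ∀ (k : ℕ) (x : Fin k → ι), nn (un S x) = ((rr A x : ℕ) : ℝ) := fun k x => by
    rw [hS, nn_un hA]
  have hlow' : ∀ X : ℝ, X₀ ≤ X → ∃ F : Finset ι, (∀ i ∈ F, nn (S i) ≤ X) ∧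
      c₁ * X ^ θ ≤ F.card := by
    simp only [hnn]
    exact hlow
  have hup' : ∀ X : ℝ, 1 ≤ X → ∀ F : Finset ι, (∀ i ∈ F, nn (S i) ≤ X) →
      (F.card : ℝ) ≤ c₂ * X ^ θ := by
    simp only [hnn]
    exact hup
  have hunit' : ∀ T : Finset (Pr ℚ), ∀ F : Finset ι, (∀ i ∈ F, S i ⊆ T) →
      (F.card : ℝ) ≤ C ^ (T.card + 1) := by
    intro T F hF
    obtain ⟨B, hB⟩ : ∃ B : Finset ℕ, B = F.biUnion A := ⟨_, rfl⟩
    have hBp : ∀ p ∈ B, p.Prime := by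
      intro p hp
      rw [hB, Finset.mem_biUnion] at hp
      obtain ⟨i, -, hi⟩ := hp
      exact hA i p hi
    have h1 := hunit B hBp F (fun i hi p hp => by
      rw [hB, Finset.mem_biUnion]
      exact ⟨i, hi, hp⟩)
    refine h1.trans (pow_le_pow_right₀ hC (Nat.succ_le_succ ?_))
    have h2 : toPr B ⊆ T := by
      intro v hv
      obtain ⟨p, hp, hpp, rfl⟩ := mem_toPr.1 hv
      rw [hB, Finset.mem_biUnion] at hp
      obtain ⟨i, hi, hpi⟩ := hp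
      apply hF i hi
      rw [hS]
      exact mem_toPr.2 ⟨p, hpi, hpp, rfl⟩
    refine le_trans ?_ (Finset.card_le_card h2)
    unfold toPr
    rw [Finset.card_image_of_injective]
    · rw [Finset.card_attach, Finset.filter_true_of_mem hBp]
    · intro p r h
      exact Subtype.ext (vp_inj h)
  have hcount : ∀ ε : ℝ, 0 < ε → ∃ D : ℝ, 0 < D ∧ ∀ X : ℝ, 1 ≤ X → ∀ F : Finset ι,
      (∀ i ∈ F, nn (S i) ≤ X) → (F.card : ℝ) ≤ D * X ^ (θ + ε) := by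
    intro ε hε
    refine ⟨c₂, hc₂, fun X hX F hF => (hup' X hX F hF).trans ?_⟩
    exact mul_le_mul_of_nonneg_left (Real.rpow_le_rpow_of_exponent_le hX (by linarith)) hc₂.le
  have hS1 : Summable fun i => (nn (S i))⁻¹ :=
    summable_of_count _ (fun x => one_le_nn _) hc₂ hθ1 hup'
  have hSk : ∀ k : ℕ, 1 ≤ k → Summable fun x : Fin k → ι => (nn (un S x))⁻¹ := by
    intro k hk
    obtain ⟨m, rfl⟩ : ∃ m, k = m + 1 := ⟨k - 1, by omega⟩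
    exact tuples_summable hθ1 hC hcount hunit' m
  have hRfun : ∀ k : ℕ, (fun x : Fin k → ι => ((rr A x : ℕ) : ℝ)⁻¹) =
      fun x => (nn (un S x))⁻¹ := fun k => by
    funext x
    rw [hun]
  refine ⟨?_, ?_, ?_, ?_, ?_, ?_, ?_⟩
  · intro m hm
    rw [hV]
    exact U_finite hS1 (mk_ne_bot (by omega))
  · intro k hk δ hδ
    obtain ⟨m, rfl⟩ : ∃ m, k = m + 1 := ⟨k - 1, by omega⟩
    obtain ⟨D, hD, h⟩ := tuples hθ1 hC hcount hunit' m δ hδ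
    refine ⟨D, fun X hX => ?_⟩
    have hset : {x : Fin (m + 1) → ι | ((rr A x : ℕ) : ℝ) ≤ X} =
        {x | nn (un S x) ≤ X} := by
      ext x
      rw [Set.mem_ofPred_eq, Set.mem_ofPred_eq, hun]
    rw [hset]
    have hfin := fin_le (hSk (m + 1) (by omega)) X
    refine ⟨hfin, ?_⟩
    have h1 := h X hX hfin.toFinset (fun x hx => (Set.Finite.mem_toFinset hfin).1 hx)
    rw [Set.ncard_eq_toFinset_card _ hfin]
    refine h1.trans (le_of_eq ?_)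
    congr 3
    push_cast
    ring
  · intro k hk
    have hpow : ∀ m : ℕ, ((V A m).ncard : ℝ) ^ k =
        ((U (fun x : Fin k → ι => un S x) (mk m)).ncard : ℝ) := by
      intro m
      rw [U_un, ncard_pi, hV, Nat.cast_pow]
    rw [hRfun]
    refine ⟨hSk k hk, ?_⟩
    have h1 := (mean (hSk k hk)).comp (tendsto_natCast_atTop_atTop (R := ℝ))
    refine h1.congr fun N => ?_
    simp only [Function.comp_apply]
    rw [sum_IF, cnt_eq, Nat.floor_natCast]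
    congr 1
    exact Finset.sum_congr rfl fun m _ => by rw [hpow]
  · obtain ⟨w, hw, hlaw⟩ := law hS1
    refine ⟨w, fun F => (hw F).nonneg, ?_, fun k hk => ?_, fun Φ => ?_⟩
    · obtain ⟨δ, h1, h2⟩ := hlaw Set.univ
      have h3 : δ = 1 := h1.unique (hasDens_true.congr fun n _ => by simp)
      rw [h3] at h2
      simpa using h2
    · rw [hRfun]
      exact law_moment (hSk k hk) hw hlaw
    · obtain ⟨δ, h1, h2⟩ := hlaw Φ
      rw [h2.tsum_eq]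
      exact (natDens_of h1).congr fun m _ => by rw [hV]
  · obtain ⟨C₁, hC₁, htail⟩ := power_tail (fun i => nn (S i)) hc₂ hθ1 hup'
    obtain ⟨C', hC', hbad⟩ := bad_card ℚ
    refine ⟨C' * C₁, fun Z N hZ hN => ?_⟩
    have h1 := hbad S hS1 Z (C₁ * Z ^ (θ - 1)) (fun t ht =>
      htail Z hZ t fun i hi => (ht i hi).le) N (Nat.cast_nonneg _)
    rw [card_IF, Nat.floor_natCast, ← natDens_eq] at h1
    have h3 : {m : ℕ | 1 ≤ m ∧ m ≤ N ∧ ∃ i ∈ V A m, Z < ((∏ p ∈ A i, p : ℕ) : ℝ)} =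
        {m : ℕ | 1 ≤ m ∧ m ≤ N ∧ ∃ i ∈ U S (mk m), Z < nn (S i)} := by
      ext m
      simp only [Set.mem_ofPred_eq, hV, hnn]
    rw [h3]
    refine h1.trans (le_of_eq ?_)
    have h4 : -(1 - θ) = θ - 1 := by ring
    rw [h4]
    ring
  · intro δ hδ
    obtain ⟨c, hc, h⟩ := tail_lower hS1 hC hunit' hθ0 hθ1 hc₁ hc₂ hlow' hup' hδ
    refine ⟨c, hc, fun Z hZ => ?_⟩
    obtain ⟨τ, hτ⟩ := exists_dens hS1 {B : Set ι | ∃ i ∈ B, Z < nn (S i)}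
    refine ⟨τ, ?_, ?_⟩
    · refine (natDens_of hτ).congr fun m _ => ?_
      simp only [Set.mem_ofPred_eq, hV, hnn]
    · have h4 : -(1 - θ) - δ = θ - 1 - δ := by ring
      rw [h4]
      exact h Z hZ τ hτ
  · intro g ψ hψ
    have h1 := far hS1 g (ψ := fun x : ℝ => ψ ⌊x⌋₊) (hψ.comp tendsto_nat_floor_atTop)
    refine (natDens_of h1).congr fun m _ => ?_
    simp only [hV, absNorm_mk, Nat.floor_natCast]

end Run7.h95.NT
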