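import Pool.Agent.Run7.h95.IP.Line
import Pool.Agent.Run7.h95.NT.Pack

/-!
# Points of the projective line over `ℚ` and prime numbers
-/

set_option autoImplicit false

namespace Run7.h95.NT

open NumberField IsDedekindDomain Finset Filter Topology Pool.Agent.H691R3 Pool.Agent.TH876.Loc
open Run7.h283.UE Run7.h283.MO Run7.h95.IP

theorem exists_vp (v : Pr ℚ) : ∃ (p : ℕ) (hp : p.Prime), v = vp p hp := by
  obtain ⟨m, hm⟩ := exists_mk v.asIdeal
  have hm0 : m ≠ 0 := by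
    rintro rfl
    apply v.ne_bot
    rw [hm]
    unfold mk
    simp
  have hp : m.Prime := by
    rw [Nat.prime_iff]
    refine ⟨hm0, ?_, ?_⟩
    · intro h
      rw [Nat.isUnit_iff] at h
      apply v.isPrime.ne_top
      rw [hm, h]
      unfold mk
      rw [Nat.cast_one, Ideal.span_singleton_one]
    · intro a b hab
      have h1 : v.asIdeal ∣ mk a * mk b := by
        rw [hm]
        have h2 : mk a * mk b = mk (a * b) := by
          unfold mk
          rw [Ideal.span_singleton_mul_span_singleton, Nat.cast_mul]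
        rw [h2]
        exact mk_dvd.2 hab
      rcases v.prime.dvd_or_dvd h1 with h2 | h2
      · rw [hm] at h2
        exact Or.inl (mk_dvd.1 h2)
      · rw [hm] at h2
        exact Or.inr (mk_dvd.1 h2)
  exact ⟨m, hp, HeightOneSpectrum.ext hm⟩

theorem fv_le_one (v : Pr ℚ) (z : ℤ) : fv v (z : ℚ) ≤ 1 := by
  have h := FinitePlace.norm_le_one ℚ (v := v) ((z : ℤ) : 𝓞 ℚ)
  rw [map_intCast] at h
  exact h

theorem fv_lt_one {p : ℕ} (hp : p.Prime) (z : ℤ) : fv (vp p hp) (z : ℚ) < 1 ↔ (p : ℤ) ∣ z := by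
  have h := FinitePlace.norm_lt_one_iff_mem ℚ (v := vp p hp) ((z : ℤ) : 𝓞 ℚ)
  rw [map_intCast] at h
  have h1 : fv (vp p hp) (z : ℚ) < 1 ↔ ((z : ℤ) : 𝓞 ℚ) ∈ mk p := h
  rw [h1]
  unfold mk
  rw [Ideal.mem_span_singleton]
  constructor
  · intro h2
    have h3 := map_dvd (Rat.ringOfIntegersEquiv : 𝓞 ℚ →+* ℤ) h2
    simpa using h3
  · intro h2
    have h3 := map_dvd (Int.castRingHom (𝓞 ℚ)) h2
    simpa using h3

theorem fv_eq_one {p : ℕ} (hp : p.Prime) {z : ℤ} (h : ¬ (p : ℤ) ∣ z) : fv (vp p hp) (z : ℚ) = 1 :=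
  le_antisymm (fv_le_one _ _) (not_lt.1 fun h' => h ((fv_lt_one hp z).1 h'))

theorem lamA_smul {v : Pr ℚ} {c : ℚ} (hc : c ≠ 0) (p r : ℚ × ℚ) :
    lamA (fv v) (c * p.1, c * p.2) r = lamA (fv v) p r := by
  unfold lamA
  have h1 : c * p.1 * r.2 - c * p.2 * r.1 = c * (p.1 * r.2 - p.2 * r.1) := by ring
  have hcp := (fv v).pos hc
  simp only [h1, (fv v).map_mul]
  rw [← mul_max_of_nonneg _ _ hcp.le]
  congr 1
  rcases eq_or_ne (fv v (p.1 * r.2 - p.2 * r.1)) 0 with h | h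
  · rw [h]
    simp
  · field_simp

/-- coprime coordinates -/
def par : Option ℚ → ℤ × ℤ
  | none => (1, 0)
  | some r => (r.num, r.den)

theorem par_coprime (x : Option ℚ) : IsCoprime (par x).1 (par x).2 := by
  cases x with
  | none => exact ⟨1, 0, by simp [par]⟩
  | some r =>
    show IsCoprime r.num (r.den : ℤ)
    rw [Int.isCoprime_iff_gcd_eq_one]
    exact r.reduced

theorem par_co (x : Option ℚ) : ∃ c : ℚ, c ≠ 0 ∧ (((par x).1 : ℚ), ((par x).2 : ℚ)) =
    (c * (co x).1, c * (co x).2) := by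
  cases x with
  | none => exact ⟨1, one_ne_zero, by simp [par, co]⟩
  | some r =>
    have hd : (r.den : ℚ) ≠ 0 := by exact_mod_cast r.den_nz
    refine ⟨r.den, hd, ?_⟩
    simp only [par, co]
    refine Prod.ext ?_ ?_
    · show (r.num : ℚ) = r.den * r
      exact (Rat.den_mul_eq_num r).symm
    · show (((r.den : ℕ) : ℤ) : ℚ) = r.den * 1
      push_cast
      ring

theorem max_par {p : ℕ} (hp : p.Prime) (x : Option ℚ) :
    max (fv (vp p hp) ((par x).1 : ℚ)) (fv (vp p hp) ((par x).2 : ℚ)) = 1 := by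
  refine le_antisymm (max_le (fv_le_one _ _) (fv_le_one _ _)) ?_
  by_contra hcon
  push Not at hcon
  have h1 := (fv_lt_one hp _).1 (lt_of_le_of_lt (le_max_left _ _) hcon)
  have h2 := (fv_lt_one hp _).1 (lt_of_le_of_lt (le_max_right _ _) hcon)
  obtain ⟨a, b, hab⟩ := par_coprime x
  have h3 : (p : ℤ) ∣ 1 := by
    rw [← hab]
    exact dvd_add (Dvd.dvd.mul_left h1 a) (Dvd.dvd.mul_left h2 b)
  have h4 : (p : ℤ) ∣ ((1 : ℕ) : ℤ) := by exact_mod_cast h3
  have h5 := Int.natCast_dvd_natCast.1 h4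
  exact hp.one_lt.ne' (Nat.dvd_one.1 h5)

/-- the local height at a prime where the point `α` has coordinates of maximum one -/
theorem lam_par {p : ℕ} (hp : p.Prime) (x : Option ℚ) {a : ℚ × ℚ}
    (ha : max (fv (vp p hp) a.1) (fv (vp p hp) a.2) = 1)
    (hx : ((par x).1 : ℚ) * a.2 - ((par x).2 : ℚ) * a.1 ≠ 0) :
    lamA (fv (vp p hp)) (co x) a ≠ 0 ↔
      fv (vp p hp) (((par x).1 : ℚ) * a.2 - ((par x).2 : ℚ) * a.1) < 1 := by
  obtain ⟨c, hc, hcx⟩ := par_co x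
  have e1 : ((par x).1 : ℚ) = c * (co x).1 := congrArg Prod.fst hcx
  have e2 : ((par x).2 : ℚ) = c * (co x).2 := congrArg Prod.snd hcx
  have h1 : lamA (fv (vp p hp)) (co x) a = lamA (fv (vp p hp)) (((par x).1 : ℚ), ((par x).2 : ℚ)) a := by
    rw [hcx, lamA_smul hc]
  have h2 : lamA (fv (vp p hp)) (((par x).1 : ℚ), ((par x).2 : ℚ)) a =
      -Real.log (fv (vp p hp) (((par x).1 : ℚ) * a.2 - ((par x).2 : ℚ) * a.1)) := by
    unfold lamA
    rw [max_par hp x, ha, one_mul, one_div, Real.log_inv]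
  have hpos := (fv (vp p hp)).pos hx
  have hle : fv (vp p hp) (((par x).1 : ℚ) * a.2 - ((par x).2 : ℚ) * a.1) ≤ 1 := by
    have h3 := fv_na (vp p hp) (((par x).1 : ℚ) * a.2) (-(((par x).2 : ℚ) * a.1))
    rw [← sub_eq_add_neg] at h3
    refine h3.trans (max_le ?_ ?_)
    · rw [(fv (vp p hp)).map_mul]
      exact mul_le_one₀ (fv_le_one _ _) ((fv _).nonneg _) (by rw [← ha]; exact le_max_right _ _)
    · rw [(fv (vp p hp)).map_neg, (fv (vp p hp)).map_mul]
      exact mul_le_one₀ (fv_le_one _ _) ((fv _).nonneg _) (by rw [← ha]; exact le_max_left _ _)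
  rw [h1, h2, neg_ne_zero]
  constructor
  · intro h
    refine lt_of_le_of_ne hle fun h' => h ?_
    rw [h', Real.log_one]
  · intro h h'
    have h3 := Real.log_neg hpos h
    rw [h'] at h3
    exact lt_irrefl _ h3

open Classical in
/-- **the hypotheses of the package, from the line** -/
theorem transfer {q : ℕ} (hq : 3 ≤ q) {α : Fin q → ℚ × ℚ} (hα0 : ∀ l, α l ≠ 0)
    (hα : ∀ i j, i ≠ j → wg (α i) (α j) ≠ 0) {ι : Type} (e : ι ≃ PP α) {A : ι → Finset ℕ}
    (hA : ∀ i, ∀ p ∈ A i, p.Prime) (B : Finset ℕ) (hB : ∀ p ∈ B, p.Prime)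
    (h1 : ∀ i, IS α (e i).1 ⊆ toPr (A i) ∪ toPr B) (h2 : ∀ i, toPr (A i) ⊆ IS α (e i).1 ∪ toPr B) :
    ∃ c₁ c₂ X₀ C : ℝ, 0 < c₁ ∧ 0 < c₂ ∧ 1 ≤ C ∧
      (∀ X : ℝ, X₀ ≤ X → ∃ F : Finset ι, (∀ i ∈ F, ((∏ p ∈ A i, p : ℕ) : ℝ) ≤ X) ∧
        c₁ * X ^ (2 / (q : ℝ)) ≤ F.card) ∧
      (∀ X : ℝ, 1 ≤ X → ∀ F : Finset ι, (∀ i ∈ F, ((∏ p ∈ A i, p : ℕ) : ℝ) ≤ X) →
        (F.card : ℝ) ≤ c₂ * X ^ (2 / (q : ℝ))) ∧
      (∀ T : Finset ℕ, (∀ p ∈ T, p.Prime) → ∀ F : Finset ι, (∀ i ∈ F, A i ⊆ T) →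
        (F.card : ℝ) ≤ C ^ (T.card + 1)) := by
  obtain ⟨c₂, hc₂, hup⟩ := count_upper hq hα0 hα
  obtain ⟨c₁, X₀, hc₁, hX₀, hlow⟩ := count_lower hq hα0 hα
  obtain ⟨C, hC, hun⟩ := unit_bound hq hα0 hα
  obtain ⟨b, hb⟩ : ∃ b : ℝ, b = nn (toPr B) := ⟨_, rfl⟩
  have hb1 : 1 ≤ b := by rw [hb]; exact one_le_nn _
  have hb0 : 0 < b := by linarith
  have hqR : (3 : ℝ) ≤ q := by exact_mod_cast hq
  have hq0 : (0 : ℝ) < q := by linarith
  have hunion : ∀ S T : Finset (Pr ℚ), nn (S ∪ T) ≤ nn S * nn T := by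
    intro S T
    have h3 := nn_sdiff (K := ℚ) (s := S ∪ T) (t := T) Finset.subset_union_right
    rw [Finset.union_sdiff_right] at h3
    rw [← h3]
    exact mul_le_mul_of_nonneg_right (nn_mono Finset.sdiff_subset) (nn_pos _).le
  have k1 : ∀ i, nn (IS α (e i).1) ≤ ((∏ p ∈ A i, p : ℕ) : ℝ) * b := by
    intro i
    rw [← nn_toPr (hA i), hb]
    exact (nn_mono (h1 i)).trans (hunion _ _)
  have k2 : ∀ i, ((∏ p ∈ A i, p : ℕ) : ℝ) ≤ nn (IS α (e i).1) * b := by
    intro i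
    rw [← nn_toPr (hA i), hb]
    exact (nn_mono (h2 i)).trans (hunion _ _)
  refine ⟨c₁ * (b⁻¹) ^ (2 / (q : ℝ)), c₂ * b ^ (2 / (q : ℝ)), X₀ * b, C ^ (B.card + 1),
    by positivity, by positivity, one_le_pow₀ hC, ?_, ?_, ?_⟩
  · intro X hX
    have hX' : X₀ ≤ X * b⁻¹ := by
      rw [← div_eq_mul_inv, le_div_iff₀ hb0]
      exact hX
    have hXp : 0 ≤ X := by nlinarith
    obtain ⟨F, hF, hcard⟩ := hlow (X * b⁻¹) hX'
    refine ⟨F.image e.symm, fun i hi => ?_, ?_⟩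
    · obtain ⟨x, hx, rfl⟩ := Finset.mem_image.1 hi
      refine (k2 _).trans ?_
      rw [Equiv.apply_symm_apply]
      calc nn (IS α x.1) * b ≤ X * b⁻¹ * b := mul_le_mul_of_nonneg_right (hF x hx) hb0.le
        _ = X := by field_simp
    · rw [Finset.card_image_of_injective _ e.symm.injective]
      refine le_trans (le_of_eq ?_) hcard
      rw [Real.mul_rpow hXp (inv_nonneg.2 hb0.le)]
      ring
  · intro X hX F hF
    have h3 := hup (X * b) (one_le_mul_of_one_le_of_one_le hX hb1) (F.image e) (by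
      intro x hx
      obtain ⟨i, hi, rfl⟩ := Finset.mem_image.1 hx
      exact (k1 i).trans (mul_le_mul_of_nonneg_right (hF i hi) hb0.le))
    rw [Finset.card_image_of_injective _ e.injective] at h3
    refine h3.trans (le_of_eq ?_)
    rw [Real.mul_rpow (by linarith) hb0.le]
    ring
  · intro T hT F hF
    have h3 := hun (toPr T ∪ toPr B) (F.image e) (by
      intro x hx
      obtain ⟨i, hi, rfl⟩ := Finset.mem_image.1 hx
      exact (h1 i).trans (Finset.union_subset_union_left (toPr_subset (hF i hi))))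
    rw [Finset.card_image_of_injective _ e.injective] at h3
    refine h3.trans ?_
    rw [← pow_mul]
    refine pow_le_pow_right₀ hC ?_
    have hcard : ∀ D : Finset ℕ, (toPr D).card ≤ D.card := by
      intro D
      unfold toPr
      refine Finset.card_image_le.trans ?_
      rw [Finset.card_attach]
      exact Finset.card_le_card (Finset.filter_subset _ _)
    have h4 := Finset.card_union_le (toPr T) (toPr B)
    have h5 := hcard T
    have h6 := hcard B
    nlinarith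

end Run7.h95.NT
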