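import Pool.Agent.Run7.h95.NT.Pack

/-!
# Limit laws for families of finite sets of prime numbers dividing a random natural number, without
a lower bound for the number of the members
-/

set_option autoImplicit false

namespace Run7.h95.NT

open NumberField IsDedekindDomain Finset Filter Topology Pool.Agent.H691R3 Pool.Agent.TH876.Loc
open Run7.h283.UE Run7.h283.MO Run7.h95.IP

variable {ι ι' : Type} {A : ι → Finset ℕ}

open Classical in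
/-- **bounds for a family which maps to another one with small fibres** -/
theorem pull {θ c₂ C : ℝ} (hc₂ : 0 < c₂) (hC : 1 ≤ C) (f : ι' → ι) (D : ℕ) (hD : 1 ≤ D)
    (hf : ∀ i, ∀ F : Finset ι', (∀ x ∈ F, f x = i) → F.card ≤ D)
    (hup : ∀ X : ℝ, 1 ≤ X → ∀ F : Finset ι, (∀ i ∈ F, ((∏ p ∈ A i, p : ℕ) : ℝ) ≤ X) →
      (F.card : ℝ) ≤ c₂ * X ^ θ)
    (hunit : ∀ T : Finset ℕ, (∀ p ∈ T, p.Prime) → ∀ F : Finset ι, (∀ i ∈ F, A i ⊆ T) →
      (F.card : ℝ) ≤ C ^ (T.card + 1)) :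
    (∀ X : ℝ, 1 ≤ X → ∀ F : Finset ι', (∀ i ∈ F, ((∏ p ∈ A (f i), p : ℕ) : ℝ) ≤ X) →
      (F.card : ℝ) ≤ ((D : ℝ) * c₂) * X ^ θ) ∧
    (∀ T : Finset ℕ, (∀ p ∈ T, p.Prime) → ∀ F : Finset ι', (∀ i ∈ F, A (f i) ⊆ T) →
      (F.card : ℝ) ≤ ((D : ℝ) * C) ^ (T.card + 1)) := by
  have hDr : (1 : ℝ) ≤ D := by exact_mod_cast hD
  have key : ∀ F : Finset ι', (F.card : ℝ) ≤ D * ((F.image f).card : ℝ) := by
    intro F
    have h3 : F.card ≤ D * (F.image f).card := by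
      refine Finset.card_le_mul_card_image F D fun i _ => ?_
      exact hf i _ fun x hx => (Finset.mem_filter.1 hx).2
    exact_mod_cast h3
  constructor
  · intro X hX F hF
    have h1 := hup X hX (F.image f) (by
      intro i hi
      obtain ⟨x, hx, rfl⟩ := Finset.mem_image.1 hi
      exact hF x hx)
    refine (key F).trans ?_
    rw [mul_assoc]
    exact mul_le_mul_of_nonneg_left h1 (by linarith)
  · intro T hT F hF
    have h1 := hunit T hT (F.image f) (by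
      intro i hi
      obtain ⟨x, hx, rfl⟩ := Finset.mem_image.1 hi
      exact hF x hx)
    refine (key F).trans ?_
    rw [mul_pow]
    have h2 : (D : ℝ) ≤ (D : ℝ) ^ (T.card + 1) := le_self_pow₀ hDr (Nat.succ_ne_zero _)
    exact mul_le_mul h2 h1 (Nat.cast_nonneg _) (by positivity)

open Classical in
/-- **the package, without the lower bound** -/
theorem pack_up (hA : ∀ i, ∀ p ∈ A i, p.Prime) {θ c₂ C : ℝ} (hθ1 : θ < 1)
    (hc₂ : 0 < c₂) (hC : 1 ≤ C)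
    (hup : ∀ X : ℝ, 1 ≤ X → ∀ F : Finset ι, (∀ i ∈ F, ((∏ p ∈ A i, p : ℕ) : ℝ) ≤ X) →
      (F.card : ℝ) ≤ c₂ * X ^ θ)
    (hunit : ∀ T : Finset ℕ, (∀ p ∈ T, p.Prime) → ∀ F : Finset ι, (∀ i ∈ F, A i ⊆ T) →
      (F.card : ℝ) ≤ C ^ (T.card + 1)) :
    (∀ m : ℕ, 1 ≤ m → (V A m).Finite) ∧
    (∀ k : ℕ, 1 ≤ k → ∀ δ : ℝ, 0 < δ → ∃ D : ℝ, ∀ X : ℝ, 1 ≤ X →
      {x : Fin k → ι | (rr A x : ℝ) ≤ X}.Finite ∧
      ({x : Fin k → ι | (rr A x : ℝ) ≤ X}.ncard : ℝ) ≤ D * X ^ (1 - (1 - θ) / (k : ℝ) + δ)) ∧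
    (∀ k : ℕ, 1 ≤ k → (Summable fun x : Fin k → ι => ((rr A x : ℕ) : ℝ)⁻¹) ∧
      Tendsto (fun N : ℕ => (∑ m ∈ Finset.Icc 1 N, ((V A m).ncard : ℝ) ^ k) / (N : ℝ))
        atTop (𝓝 (∑' x : Fin k → ι, ((rr A x : ℕ) : ℝ)⁻¹))) ∧
    (∃ w : Finset ι → ℝ, (∀ F, 0 ≤ w F) ∧ HasSum w 1 ∧
      (∀ k : ℕ, 1 ≤ k → HasSum (fun F : Finset ι => (F.card : ℝ) ^ k * w F)
        (∑' x : Fin k → ι, ((rr A x : ℕ) : ℝ)⁻¹)) ∧
      ∀ Φ : Set (Set ι), NatDens (fun m => V A m ∈ Φ)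
        (∑' F : Finset ι, if (F : Set ι) ∈ Φ then w F else 0)) ∧
    (∃ D : ℝ, ∀ Z : ℝ, ∀ N : ℕ, 1 ≤ Z → 1 ≤ N →
      ({m : ℕ | 1 ≤ m ∧ m ≤ N ∧ ∃ i ∈ V A m, Z < ((∏ p ∈ A i, p : ℕ) : ℝ)}.ncard : ℝ) ≤
        D * Z ^ (-(1 - θ)) * N) ∧
    (∀ (g : ι → ℝ) (ψ : ℕ → ℝ), Tendsto ψ atTop atTop →
      NatDens (fun m => ∃ i ∈ V A m, ψ m < g i) 0) := by
  obtain ⟨S, hS⟩ : ∃ S : ι → Finset (Pr ℚ), S = fun i => toPr (A i) := ⟨_, rfl⟩
  have hnn : ∀ i, nn (S i) = ((∏ p ∈ A i, p : ℕ) : ℝ) := fun i => by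
    rw [hS]
    exact nn_toPr (hA i)
  have hV : ∀ m, V A m = U S (mk m) := fun m => by rw [hS, V_eq hA]
  have hun : ∀ (k : ℕ) (x : Fin k → ι), nn (un S x) = ((rr A x : ℕ) : ℝ) := fun k x => by
    rw [hS, nn_un hA]
  have hup' : ∀ X : ℝ, 1 ≤ X → ∀ F : Finset ι, (∀ i ∈ F, nn (S i) ≤ X) →
      (F.card : ℝ) ≤ c₂ * X ^ θ := by
    simp only [hnn]
    exact hup
  have hunit' : ∀ T : Finset (Pr ℚ), ∀ F : Finset ι, (∀ i ∈ F, S i ⊆ T) →
      (F.card : ℝ) ≤ C ^ (T.card + 1) := by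
    intro T F hF
    obtain ⟨B, hB⟩ : ∃ B : Finset ℕ, B = F.biUnion A := ⟨_, rfl⟩
    have hBp : ∀ p ∈ B, p.Prime := by
      intro p hp
      rw [hB, Finset.mem_biUnion] at hp
      obtain ⟨i, -, hi⟩ := hp
      exact hA i p hi
    have h1 := hunit B hBp F (fun i hi p hp => by
      rw [hB, Finset.mem_biUnion]
      exact ⟨i, hi, hp⟩)
    refine h1.trans (pow_le_pow_right₀ hC (Nat.succ_le_succ ?_))
    have h2 : toPr B ⊆ T := by
      intro v hv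
      obtain ⟨p, hp, hpp, rfl⟩ := mem_toPr.1 hv
      rw [hB, Finset.mem_biUnion] at hp
      obtain ⟨i, hi, hpi⟩ := hp
      apply hF i hi
      rw [hS]
      exact mem_toPr.2 ⟨p, hpi, hpp, rfl⟩
    refine le_trans ?_ (Finset.card_le_card h2)
    unfold toPr
    rw [Finset.card_image_of_injective]
    · rw [Finset.card_attach, Finset.filter_true_of_mem hBp]
    · intro p r h
      exact Subtype.ext (vp_inj h)
  have hcount : ∀ ε : ℝ, 0 < ε → ∃ D : ℝ, 0 < D ∧ ∀ X : ℝ, 1 ≤ X → ∀ F : Finset ι,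
      (∀ i ∈ F, nn (S i) ≤ X) → (F.card : ℝ) ≤ D * X ^ (θ + ε) := by
    intro ε hε
    refine ⟨c₂, hc₂, fun X hX F hF => (hup' X hX F hF).trans ?_⟩
    exact mul_le_mul_of_nonneg_left (Real.rpow_le_rpow_of_exponent_le hX (by linarith)) hc₂.le
  have hS1 : Summable fun i => (nn (S i))⁻¹ :=
    summable_of_count _ (fun x => one_le_nn _) hc₂ hθ1 hup'
  have hSk : ∀ k : ℕ, 1 ≤ k → Summable fun x : Fin k → ι => (nn (un S x))⁻¹ := by
    intro k hk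
    obtain ⟨m, rfl⟩ : ∃ m, k = m + 1 := ⟨k - 1, by omega⟩
    exact tuples_summable hθ1 hC hcount hunit' m
  have hRfun : ∀ k : ℕ, (fun x : Fin k → ι => ((rr A x : ℕ) : ℝ)⁻¹) =
      fun x => (nn (un S x))⁻¹ := fun k => by
    funext x
    rw [hun]
  refine ⟨?_, ?_, ?_, ?_, ?_, ?_⟩
  · intro m hm
    rw [hV]
    exact U_finite hS1 (mk_ne_bot (by omega))
  · intro k hk δ hδ
    obtain ⟨m, rfl⟩ : ∃ m, k = m + 1 := ⟨k - 1, by omega⟩
    obtain ⟨D, hD, h⟩ := tuples hθ1 hC hcount hunit' m δ hδ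
    refine ⟨D, fun X hX => ?_⟩
    have hset : {x : Fin (m + 1) → ι | ((rr A x : ℕ) : ℝ) ≤ X} =
        {x | nn (un S x) ≤ X} := by
      ext x
      rw [Set.mem_ofPred_eq, Set.mem_ofPred_eq, hun]
    rw [hset]
    have hfin := fin_le (hSk (m + 1) (by omega)) X
    refine ⟨hfin, ?_⟩
    have h1 := h X hX hfin.toFinset (fun x hx => (Set.Finite.mem_toFinset hfin).1 hx)
    rw [Set.ncard_eq_toFinset_card _ hfin]
    refine h1.trans (le_of_eq ?_)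
    congr 3
    push_cast
    ring
  · intro k hk
    have hpow : ∀ m : ℕ, ((V A m).ncard : ℝ) ^ k =
        ((U (fun x : Fin k → ι => un S x) (mk m)).ncard : ℝ) := by
      intro m
      rw [U_un, ncard_pi, hV, Nat.cast_pow]
    rw [hRfun]
    refine ⟨hSk k hk, ?_⟩
    have h1 := (mean (hSk k hk)).comp (tendsto_natCast_atTop_atTop (R := ℝ))
    refine h1.congr fun N => ?_
    simp only [Function.comp_apply]
    rw [sum_IF, cnt_eq, Nat.floor_natCast]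
    congr 1
    exact Finset.sum_congr rfl fun m _ => by rw [hpow]
  · obtain ⟨w, hw, hlaw⟩ := law hS1
    refine ⟨w, fun F => (hw F).nonneg, ?_, fun k hk => ?_, fun Φ => ?_⟩
    · obtain ⟨δ, h1, h2⟩ := hlaw Set.univ
      have h3 : δ = 1 := h1.unique (hasDens_true.congr fun n _ => by simp)
      rw [h3] at h2
      simpa using h2
    · rw [hRfun]
      exact law_moment (hSk k hk) hw hlaw
    · obtain ⟨δ, h1, h2⟩ := hlaw Φ
      rw [h2.tsum_eq]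
      exact (natDens_of h1).congr fun m _ => by rw [hV]
  · obtain ⟨C₁, hC₁, htail⟩ := power_tail (fun i => nn (S i)) hc₂ hθ1 hup'
    obtain ⟨C', hC', hbad⟩ := bad_card ℚ
    refine ⟨C' * C₁, fun Z N hZ hN => ?_⟩
    have h1 := hbad S hS1 Z (C₁ * Z ^ (θ - 1)) (fun t ht =>
      htail Z hZ t fun i hi => (ht i hi).le) N (Nat.cast_nonneg _)
    rw [card_IF, Nat.floor_natCast, ← natDens_eq] at h1
    have h3 : {m : ℕ | 1 ≤ m ∧ m ≤ N ∧ ∃ i ∈ V A m, Z < ((∏ p ∈ A i, p : ℕ) : ℝ)} =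
        {m : ℕ | 1 ≤ m ∧ m ≤ N ∧ ∃ i ∈ U S (mk m), Z < nn (S i)} := by
      ext m
      simp only [Set.mem_ofPred_eq, hV, hnn]
    rw [h3]
    refine h1.trans (le_of_eq ?_)
    have h4 : -(1 - θ) = θ - 1 := by ring
    rw [h4]
    ring
  · intro g ψ hψ
    have h1 := far hS1 g (ψ := fun x : ℝ => ψ ⌊x⌋₊) (hψ.comp tendsto_nat_floor_atTop)
    refine (natDens_of h1).congr fun m _ => ?_
    simp only [hV, absNorm_mk, Nat.floor_natCast]

end Run7.h95.NT
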