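import Pool.Agent.Run7.h95.NT.Line

/-!
# The denominators of the values of a rational function with rational poles
-/

set_option autoImplicit false

namespace Run7.h95.NT

open NumberField IsDedekindDomain Finset Filter Topology Polynomial Pool.Agent.H691R3
open Pool.Agent.TH876.Loc
open Run7.h283.UE Run7.h283.MO Run7.h95.IP

open Classical in
/-- **the hypotheses of the package, from a map on the line with finite fibres** -/
theorem transfer_surj {q : ℕ} (hq : 3 ≤ q) {α : Fin q → ℚ × ℚ} (hα0 : ∀ l, α l ≠ 0)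
    (hα : ∀ i j, i ≠ j → wg (α i) (α j) ≠ 0) {ι : Type} (f : PP α → ι)
    (hf : Function.Surjective f) (D : ℕ)
    (hD : ∀ i, ∀ F : Finset (PP α), (∀ x ∈ F, f x = i) → F.card ≤ D) {A : ι → Finset ℕ}
    (hA : ∀ i, ∀ p ∈ A i, p.Prime) (B : Finset ℕ) (hB : ∀ p ∈ B, p.Prime)
    (h1 : ∀ x, IS α x.1 ⊆ toPr (A (f x)) ∪ toPr B)
    (h2 : ∀ x, toPr (A (f x)) ⊆ IS α x.1 ∪ toPr B) :
    ∃ c₁ c₂ X₀ C : ℝ, 0 < c₁ ∧ 0 < c₂ ∧ 1 ≤ C ∧
      (∀ X : ℝ, X₀ ≤ X → ∃ F : Finset ι, (∀ i ∈ F, ((∏ p ∈ A i, p : ℕ) : ℝ) ≤ X) ∧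
        c₁ * X ^ (2 / (q : ℝ)) ≤ F.card) ∧
      (∀ X : ℝ, 1 ≤ X → ∀ F : Finset ι, (∀ i ∈ F, ((∏ p ∈ A i, p : ℕ) : ℝ) ≤ X) →
        (F.card : ℝ) ≤ c₂ * X ^ (2 / (q : ℝ))) ∧
      (∀ T : Finset ℕ, (∀ p ∈ T, p.Prime) → ∀ F : Finset ι, (∀ i ∈ F, A i ⊆ T) →
        (F.card : ℝ) ≤ C ^ (T.card + 1)) := by
  obtain ⟨c₁, c₂, X₀, C, hc₁, hc₂, hC, hlow, hup, hunit⟩ :=
    transfer hq hα0 hα (Equiv.refl (PP α)) (A := fun x => A (f x)) (fun x => hA (f x)) B hB h1 h2
  choose s hs using hf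
  have hsinj : Function.Injective s := fun i j hij => by rw [← hs i, hij, hs]
  refine ⟨c₁ / (D + 1), c₂, X₀, C, by positivity, hc₂, hC, ?_, ?_, ?_⟩
  · intro X hX
    obtain ⟨E, hE, hcard⟩ := hlow X hX
    refine ⟨E.image f, fun i hi => ?_, ?_⟩
    · obtain ⟨x, hx, rfl⟩ := Finset.mem_image.1 hi
      exact hE x hx
    · have h3 : E.card ≤ D * (E.image f).card := by
        refine Finset.card_le_mul_card_image E D fun i _ => ?_
        exact hD i _ fun x hx => (Finset.mem_filter.1 hx).2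
      have h4 : (E.card : ℝ) ≤ (D : ℝ) * (E.image f).card := by exact_mod_cast h3
      rw [div_mul_eq_mul_div, div_le_iff₀ (by positivity)]
      have h5 : (0 : ℝ) ≤ (E.image f).card := Nat.cast_nonneg _
      nlinarith
  · intro X hX F hF
    have h3 := hup X hX (F.image s) (by
      intro x hx
      obtain ⟨i, hi, rfl⟩ := Finset.mem_image.1 hx
      rw [hs]
      exact hF i hi)
    rwa [Finset.card_image_of_injective _ hsinj] at h3
  · intro T hT F hF
    have h3 := hunit T hT (F.image s) (by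
      intro x hx
      obtain ⟨i, hi, rfl⟩ := Finset.mem_image.1 hx
      rw [hs]
      exact hF i hi)
    rwa [Finset.card_image_of_injective _ hsinj] at h3

theorem den_iff {p : ℕ} (hp : p.Prime) (j : ℚ) : p ∣ j.den ↔ 1 < fv (vp p hp) j := by
  have hj : fv (vp p hp) j = fv (vp p hp) ((j.num : ℤ) : ℚ) / fv (vp p hp) (((j.den : ℕ) : ℤ) : ℚ) := by
    rw [← map_div₀]
    congr 1
    rw [Int.cast_natCast]
    exact (Rat.num_div_den j).symm
  have hden : (((j.den : ℕ) : ℤ) : ℚ) ≠ 0 := by exact_mod_cast j.den_nz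
  constructor
  · intro h
    have h1 : fv (vp p hp) (((j.den : ℕ) : ℤ) : ℚ) < 1 :=
      (fv_lt_one hp _).2 (Int.natCast_dvd_natCast.2 h)
    have h2 : ¬ (p : ℤ) ∣ j.num := by
      intro h3
      have h4 : p ∣ Nat.gcd j.num.natAbs j.den := Nat.dvd_gcd (Int.natCast_dvd.1 h3) h
      rw [j.reduced] at h4
      exact hp.one_lt.ne' (Nat.dvd_one.1 h4)
    rw [hj, fv_eq_one hp h2]
    exact (one_lt_div ((fv _).pos hden)).2 h1
  · intro h
    by_contra hcon
    have h1 : ¬ (p : ℤ) ∣ ((j.den : ℕ) : ℤ) := fun h2 => hcon (Int.natCast_dvd_natCast.1 h2)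
    rw [hj, fv_eq_one hp h1, div_one] at h
    exact absurd (fv_le_one _ _) (not_le.2 h)

/-- the values of `P / ∏ (X - r_l) ^ e_l` -/
noncomputable def J (P : ℚ[X]) {L : ℕ} (r : Fin L → ℚ) (e : Fin L → ℕ) : Option ℚ → ℚ
  | none => P.coeff (∑ l, e l)
  | some x => P.eval x / ∏ l, (x - r l) ^ e l

theorem ultra_sub (v : Pr ℚ) (a b : ℚ) : fv v (a - b) ≤ max (fv v a) (fv v b) := by
  have h := fv_na v a (-b)
  rwa [← sub_eq_add_neg, (fv v).map_neg] at h

theorem fv_eval_le {v : Pr ℚ} {P : ℚ[X]} (hP : ∀ i, fv v (P.coeff i) ≤ 1) {x : ℚ}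
    (hx : fv v x ≤ 1) : fv v (P.eval x) ≤ 1 := by
  rw [eval_eq_sum_range]
  refine fv_sum_le v _ _ 1 zero_le_one fun i _ => ?_
  rw [(fv v).map_mul, (fv v).map_pow]
  exact mul_le_one₀ (hP i) (pow_nonneg ((fv v).nonneg _) _) (pow_le_one₀ ((fv v).nonneg _) hx)

theorem fv_eval_sub_le {v : Pr ℚ} {P : ℚ[X]} (hP : ∀ i, fv v (P.coeff i) ≤ 1) {x y : ℚ}
    (hx : fv v x ≤ 1) (hy : fv v y ≤ 1) : fv v (P.eval x - P.eval y) ≤ fv v (x - y) := by
  rw [eval_eq_sum_range, eval_eq_sum_range, ← Finset.sum_sub_distrib]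
  refine fv_sum_le v _ _ _ ((fv v).nonneg _) fun i _ => ?_
  rw [← mul_sub, (fv v).map_mul, ← (Commute.all x y).geom_sum₂_mul, (fv v).map_mul]
  have h1 : fv v (∑ j ∈ Finset.range i, x ^ j * y ^ (i - 1 - j)) ≤ 1 := by
    refine fv_sum_le v _ _ 1 zero_le_one fun j _ => ?_
    rw [(fv v).map_mul, (fv v).map_pow, (fv v).map_pow]
    exact mul_le_one₀ (pow_le_one₀ ((fv v).nonneg _) hx) (pow_nonneg ((fv v).nonneg _) _)
      (pow_le_one₀ ((fv v).nonneg _) hy)
  calc fv v (P.coeff i) * (fv v (∑ j ∈ Finset.range i, x ^ j * y ^ (i - 1 - j)) * fv v (x - y)) ≤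
      1 * (1 * fv v (x - y)) := by
        refine mul_le_mul (hP i) (mul_le_mul_of_nonneg_right h1 ((fv v).nonneg _))
          (mul_nonneg ((fv v).nonneg _) ((fv v).nonneg _)) zero_le_one
    _ = _ := by ring

/-- the comparison at a good prime -/
theorem J_iff {P : ℚ[X]} {L : ℕ} {r : Fin L → ℚ} {e : Fin L → ℕ}
    (hdeg : P.natDegree ≤ ∑ l, e l) (he : ∀ l, 1 ≤ e l) {p : ℕ} (hp : p.Prime)
    (hP : ∀ i, fv (vp p hp) (P.coeff i) ≤ 1) (hr : ∀ l, fv (vp p hp) (r l) ≤ 1)
    (hPr : ∀ l, fv (vp p hp) (P.eval (r l)) = 1) (x : Option ℚ)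
    (hx : ∀ l, ((par x).1 : ℚ) - r l * ((par x).2 : ℚ) ≠ 0) :
    p ∣ (J P r e x).den ↔
      ∃ l, fv (vp p hp) (((par x).1 : ℚ) - r l * ((par x).2 : ℚ)) < 1 := by
  obtain ⟨v, hv⟩ : ∃ v, v = vp p hp := ⟨_, rfl⟩
  rw [den_iff hp]
  rw [← hv] at hP hr hPr ⊢
  have hmax : max (fv v ((par x).1 : ℚ)) (fv v ((par x).2 : ℚ)) = 1 := by
    rw [hv]
    exact max_par hp x
  have hle : ∀ l, fv v (((par x).1 : ℚ) - r l * ((par x).2 : ℚ)) ≤ 1 := by
    intro l
    refine (ultra_sub v _ _).trans (max_le (fv_le_one _ _) ?_)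
    rw [(fv v).map_mul]
    exact mul_le_one₀ (hr l) ((fv _).nonneg _) (fv_le_one _ _)
  constructor
  · intro h
    by_contra hcon
    push Not at hcon
    have heq : ∀ l, fv v (((par x).1 : ℚ) - r l * ((par x).2 : ℚ)) = 1 := fun l =>
      le_antisymm (hle l) (hcon l)
    apply absurd h
    rw [not_lt]
    cases x with
    | none => exact hP _
    | some y =>
      have hd : ((y.den : ℕ) : ℚ) ≠ 0 := by exact_mod_cast y.den_nz
      have e1 : ∀ l, y - r l = (((par (some y)).1 : ℚ) - r l * ((par (some y)).2 : ℚ)) / y.den := by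
        intro l
        simp only [par]
        rw [eq_div_iff hd, sub_mul, Rat.mul_den_eq_num]
        push_cast
        ring
      have e2 : fv v (∏ l, (y - r l) ^ e l) = (fv v (y.den : ℚ))⁻¹ ^ (∑ l, e l) := by
        rw [map_prod, ← Finset.prod_pow_eq_pow_sum]
        refine Finset.prod_congr rfl fun l _ => ?_
        rw [(fv v).map_pow, e1, map_div₀, heq, one_div]
      have e3 : fv v (P.eval y) ≤ (fv v (y.den : ℚ))⁻¹ ^ (∑ l, e l) := by
        rw [eval_eq_sum_range]
        refine fv_sum_le v _ _ _ (pow_nonneg (inv_nonneg.2 ((fv v).nonneg _)) _) fun i hi => ?_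
        rw [Finset.mem_range] at hi
        rw [(fv v).map_mul, (fv v).map_pow]
        have h3 : fv v y = fv v (y.num : ℚ) * (fv v (y.den : ℚ))⁻¹ := by
          rw [← map_inv₀, ← (fv v).map_mul, ← div_eq_mul_inv, Rat.num_div_den]
        have hden1 : fv v (y.den : ℚ) ≤ 1 := by
          have := fv_le_one v ((y.den : ℕ) : ℤ)
          rwa [Int.cast_natCast] at this
        have hinv : 1 ≤ (fv v (y.den : ℚ))⁻¹ := (one_le_inv₀ ((fv v).pos hd)).2 hden1
        have h4 : fv v y ≤ (fv v (y.den : ℚ))⁻¹ := by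
          rw [h3]
          exact mul_le_of_le_one_left (by linarith) (fv_le_one _ _)
        calc fv v (P.coeff i) * fv v y ^ i ≤ 1 * (fv v (y.den : ℚ))⁻¹ ^ i :=
              mul_le_mul (hP i) (pow_le_pow_left₀ ((fv v).nonneg _) h4 i)
                (pow_nonneg ((fv v).nonneg _) _) zero_le_one
          _ ≤ _ := by
              rw [one_mul]
              exact pow_le_pow_right₀ hinv (by omega)
      show fv v (P.eval y / ∏ l, (y - r l) ^ e l) ≤ 1
      rw [map_div₀, e2]
      refine div_le_one_of_le₀ e3 (pow_nonneg (inv_nonneg.2 ((fv v).nonneg _)) _)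
  · rintro ⟨l, hl⟩
    cases x with
    | none =>
      exfalso
      simp only [par] at hl
      push_cast at hl
      rw [mul_zero, sub_zero, map_one] at hl
      exact lt_irrefl _ hl
    | some y =>
      have hd : ((y.den : ℕ) : ℚ) ≠ 0 := by exact_mod_cast y.den_nz
      have e0 : ((par (some y)).2 : ℚ) = y.den := by
        simp only [par]
        push_cast
        rfl
      have hden : fv v (y.den : ℚ) = 1 := by
        have h1 : fv v (y.den : ℚ) ≤ 1 := by
          have := fv_le_one v ((y.den : ℕ) : ℤ)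
          rwa [Int.cast_natCast] at this
        refine le_antisymm h1 ?_
        by_contra hcon
        push Not at hcon
        have h2 : fv v ((par (some y)).1 : ℚ) < 1 := by
          have h3 := fv_na v (((par (some y)).1 : ℚ) - r l * ((par (some y)).2 : ℚ))
            (r l * ((par (some y)).2 : ℚ))
          rw [sub_add_cancel] at h3
          refine lt_of_le_of_lt h3 (max_lt hl ?_)
          rw [(fv v).map_mul, e0]
          exact lt_of_le_of_lt (mul_le_of_le_one_left ((fv v).nonneg _) (hr l)) hcon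
        have h4 : max (fv v ((par (some y)).1 : ℚ)) (fv v ((par (some y)).2 : ℚ)) < 1 :=
          max_lt h2 (by rw [e0]; exact hcon)
        rw [hmax] at h4
        exact lt_irrefl _ h4
      have e1 : ∀ l, fv v (y - r l) =
          fv v (((par (some y)).1 : ℚ) - r l * ((par (some y)).2 : ℚ)) := by
        intro l
        have h1 : ((par (some y)).1 : ℚ) - r l * ((par (some y)).2 : ℚ) = (y - r l) * y.den := by
          simp only [par]
          rw [sub_mul, Rat.mul_den_eq_num]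
          push_cast
          ring
        rw [h1, (fv v).map_mul, hden, mul_one]
      have hyr : fv v (y - r l) < 1 := by rw [e1]; exact hl
      have hy1 : fv v y ≤ 1 := by
        have h3 := fv_na v (y - r l) (r l)
        rw [sub_add_cancel] at h3
        exact h3.trans (max_le hyr.le (hr l))
      have hPy : fv v (P.eval y) = 1 := by
        refine le_antisymm (fv_eval_le hP hy1) ?_
        by_contra hcon
        push Not at hcon
        have h3 := ultra_sub v (P.eval y) (P.eval y - P.eval (r l))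
        rw [sub_sub_cancel, hPr] at h3
        have h4 : max (fv v (P.eval y)) (fv v (P.eval y - P.eval (r l))) < 1 :=
          max_lt hcon (lt_of_le_of_lt (fv_eval_sub_le hP hy1 (hr l)) hyr)
        linarith
      show 1 < fv v (P.eval y / ∏ l, (y - r l) ^ e l)
      rw [map_div₀, hPy, map_prod]
      have hyne : ∀ l, y - r l ≠ 0 := by
        intro l h
        apply hx l
        simp only [par]
        have h5 : (y.num : ℚ) = y * y.den := (Rat.mul_den_eq_num y).symm
        rw [h5]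
        push_cast
        linear_combination (y.den : ℚ) * h
      have hpos : 0 < ∏ l, fv v ((y - r l) ^ e l) :=
        Finset.prod_pos fun l _ => (fv v).pos (pow_ne_zero _ (hyne l))
      rw [one_lt_div hpos, ← Finset.mul_prod_erase _ _ (Finset.mem_univ l)]
      refine mul_lt_one_of_nonneg_of_lt_one_left ((fv _).nonneg _) ?_ ?_
      · rw [(fv v).map_pow]
        exact pow_lt_one₀ ((fv v).nonneg _) hyr (by have := he l; omega)
      · refine Finset.prod_le_one (fun j _ => (fv _).nonneg _) fun j _ => ?_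
        rw [(fv v).map_pow]
        refine pow_le_one₀ ((fv v).nonneg _) ?_
        rw [e1]
        exact hle j

/-- the finite values of `J` -/
def Val (P : ℚ[X]) {L : ℕ} (r : Fin L → ℚ) (e : Fin L → ℕ) : Type :=
  {j : ℚ // ∃ x : Option ℚ, (∀ l, x ≠ some (r l)) ∧ J P r e x = j}

/-- the primes dividing the denominator -/
def denP {P : ℚ[X]} {L : ℕ} {r : Fin L → ℚ} {e : Fin L → ℕ} (j : Val P r e) : Finset ℕ :=
  j.1.den.primeFactors

/-- **the hypotheses of the package for the values of a rational function** -/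
theorem val_hyps (P : ℚ[X]) {L : ℕ} (hL : 3 ≤ L) (r : Fin L → ℚ) (hr : Function.Injective r)
    (e : Fin L → ℕ) (he : ∀ l, 1 ≤ e l) (hdeg : P.natDegree ≤ ∑ l, e l)
    (hPr : ∀ l, P.eval (r l) ≠ 0) :
    ∃ c₁ c₂ X₀ C : ℝ, 0 < c₁ ∧ 0 < c₂ ∧ 1 ≤ C ∧
      (∀ X : ℝ, X₀ ≤ X → ∃ F : Finset (Val P r e), (∀ i ∈ F, ((∏ p ∈ denP i, p : ℕ) : ℝ) ≤ X) ∧
        c₁ * X ^ (2 / (L : ℝ)) ≤ F.card) ∧
      (∀ X : ℝ, 1 ≤ X → ∀ F : Finset (Val P r e), (∀ i ∈ F, ((∏ p ∈ denP i, p : ℕ) : ℝ) ≤ X) →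
        (F.card : ℝ) ≤ c₂ * X ^ (2 / (L : ℝ))) ∧
      (∀ T : Finset ℕ, (∀ p ∈ T, p.Prime) → ∀ F : Finset (Val P r e), (∀ i ∈ F, denP i ⊆ T) →
        (F.card : ℝ) ≤ C ^ (T.card + 1)) := by
  classical
  obtain ⟨α, hα⟩ : ∃ α : Fin L → ℚ × ℚ, α = fun l => (r l, 1) := ⟨_, rfl⟩
  have ha1 : ∀ l, (α l).1 = r l := fun l => by rw [hα]
  have ha2 : ∀ l, (α l).2 = 1 := fun l => by rw [hα]
  have hα0 : ∀ l, α l ≠ 0 := fun l h => by
    have := congrArg Prod.snd h
    rw [ha2] at this
    exact one_ne_zero this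
  have hα' : ∀ i j, i ≠ j → wg (α i) (α j) ≠ 0 := by
    intro i j hij
    unfold wg
    rw [ha1, ha1, ha2, ha2, mul_one, one_mul, sub_ne_zero]
    exact fun h => hij (hr h)
  have hoff : ∀ x : Option ℚ, (∀ l, (co x).1 * (α l).2 - (co x).2 * (α l).1 ≠ 0) ↔
      ∀ l, x ≠ some (r l) := by
    intro x
    refine forall_congr' fun l => ?_
    rw [ha1, ha2, mul_one]
    cases x with
    | none => simp [co]
    | some y =>
      simp only [co, one_mul, ne_eq, Option.some.injEq]
      rw [sub_eq_zero]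
  have hpar : ∀ x : Option ℚ, (∀ l, x ≠ some (r l)) →
      ∀ l, ((par x).1 : ℚ) - r l * ((par x).2 : ℚ) ≠ 0 := by
    intro x hx l
    have h1 := (hoff x).2 hx l
    obtain ⟨c, hc, hcx⟩ := par_co x
    have e1 : ((par x).1 : ℚ) = c * (co x).1 := congrArg Prod.fst hcx
    have e2 : ((par x).2 : ℚ) = c * (co x).2 := congrArg Prod.snd hcx
    rw [ha1, ha2, mul_one] at h1
    rw [e1, e2]
    have : c * (co x).1 - r l * (c * (co x).2) = c * ((co x).1 - (co x).2 * r l) := by ring
    rw [this]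
    exact mul_ne_zero hc h1
  -- the bad primes
  obtain ⟨B', hB'⟩ : ∃ B' : Finset (Pr ℚ), ∀ v, v ∉ B' → (∀ i, fv v (P.coeff i) ≤ 1) ∧
      (∀ l, fv v (r l) ≤ 1) ∧ ∀ l, fv v (P.eval (r l)) = 1 := by
    have f1 : {v : Pr ℚ | ∃ i, 1 < fv v (P.coeff i)}.Finite := by
      refine Set.Finite.subset (Set.finite_iUnion (ι := Fin (P.natDegree + 1)) fun i =>
        (?_ : {v : Pr ℚ | 1 < fv v (P.coeff i)}.Finite)) ?_
      · rcases eq_or_ne (P.coeff i) 0 with h | h
        · rw [h]
          convert Set.finite_empty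
          ext v
          simp
        · exact (fv_support_finite h).subset fun v hv => ne_of_gt hv
      · rintro v ⟨i, hi⟩
        have h1 : i ≤ P.natDegree := by
          by_contra hcon
          rw [coeff_eq_zero_of_natDegree_lt (not_le.1 hcon), map_zero] at hi
          linarith
        exact Set.mem_iUnion.2 ⟨⟨i, by omega⟩, hi⟩
    have f2 : {v : Pr ℚ | ∃ l, 1 < fv v (r l)}.Finite := by
      refine Set.Finite.subset (Set.finite_iUnion (ι := Fin L) fun l =>
        (?_ : {v : Pr ℚ | 1 < fv v (r l)}.Finite)) ?_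
      · rcases eq_or_ne (r l) 0 with h | h
        · rw [h]
          convert Set.finite_empty
          ext v
          simp
        · exact (fv_support_finite h).subset fun v hv => ne_of_gt hv
      · rintro v ⟨l, hl⟩
        exact Set.mem_iUnion.2 ⟨l, hl⟩
    have f3 : {v : Pr ℚ | ∃ l, fv v (P.eval (r l)) ≠ 1}.Finite := by
      refine Set.Finite.subset (Set.finite_iUnion (ι := Fin L) fun l =>
        fv_support_finite (hPr l)) ?_
      rintro v ⟨l, hl⟩
      exact Set.mem_iUnion.2 ⟨l, hl⟩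
    refine ⟨(f1.union (f2.union f3)).toFinset, fun v hv => ?_⟩
    rw [Set.Finite.mem_toFinset, Set.mem_union, Set.mem_union, not_or, not_or] at hv
    obtain ⟨g1, g2, g3⟩ := hv
    simp only [Set.mem_ofPred_eq, not_exists, not_lt, not_not] at g1 g2 g3
    exact ⟨g1, g2, g3⟩
  obtain ⟨B, hBdef⟩ : ∃ B : Finset ℕ, B = B'.image fun v => Ideal.absNorm v.asIdeal := ⟨_, rfl⟩
  have hvabs : ∀ (p : ℕ) (hp : p.Prime), Ideal.absNorm (vp p hp).asIdeal = p := fun p hp =>
    absNorm_mk p
  have hBp : ∀ p ∈ B, p.Prime := by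
    intro p hp
    rw [hBdef, Finset.mem_image] at hp
    obtain ⟨v, -, rfl⟩ := hp
    obtain ⟨p, hp, rfl⟩ := exists_vp v
    rw [hvabs]
    exact hp
  have hBmem : ∀ (p : ℕ) (hp : p.Prime), vp p hp ∉ toPr B → vp p hp ∉ B' := by
    intro p hp h h'
    apply h
    refine mem_toPr.2 ⟨p, ?_, hp, rfl⟩
    rw [hBdef, Finset.mem_image]
    exact ⟨_, h', hvabs p hp⟩
  have key : ∀ (x : PP α) (p : ℕ) (hp : p.Prime), vp p hp ∉ toPr B →
      (vp p hp ∈ IS α x.1 ↔ p ∣ (J P r e x.1).den) := by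
    intro x p hp hpB
    obtain ⟨g1, g2, g3⟩ := hB' _ (hBmem p hp hpB)
    have hx := (hoff x.1).1 x.2
    rw [J_iff hdeg he hp g1 g2 g3 x.1 (hpar x.1 hx), mem_IS hα0 x]
    refine exists_congr fun l => ?_
    have hmax : max (fv (vp p hp) (α l).1) (fv (vp p hp) (α l).2) = 1 := by
      rw [ha1, ha2, map_one]
      exact max_eq_right (g2 l)
    have hw : ((par x.1).1 : ℚ) * (α l).2 - ((par x.1).2 : ℚ) * (α l).1 =
        ((par x.1).1 : ℚ) - r l * ((par x.1).2 : ℚ) := by
      rw [ha1, ha2]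
      ring
    have h4 := lam_par hp x.1 hmax (by rw [hw]; exact hpar x.1 hx l)
    rw [hw] at h4
    exact h4
  obtain ⟨f, hf⟩ : ∃ f : PP α → Val P r e, ∀ x, (f x).1 = J P r e x.1 :=
    ⟨fun x => ⟨J P r e x.1, x.1, (hoff x.1).1 x.2, rfl⟩, fun x => rfl⟩
  have hfs : Function.Surjective f := by
    rintro ⟨j, x, hx, hj⟩
    refine ⟨⟨x, (hoff x).2 hx⟩, Subtype.ext ?_⟩
    rw [hf]
    exact hj
  refine transfer_surj hL hα0 hα' f hfs ((∑ l, e l) + 1) ?_ (A := denP)
    (fun x p hp => Nat.prime_of_mem_primeFactors hp) B hBp (fun x v hv => ?_) (fun x v hv => ?_)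
  · -- the fibres are finite
    intro j F hF
    obtain ⟨E, hE⟩ : ∃ E : Finset ℚ, E = (F.image Subtype.val).eraseNone := ⟨_, rfl⟩
    have hmemE : ∀ y, y ∈ E ↔ ∃ x ∈ F, x.1 = some y := by
      intro y
      rw [hE, Finset.mem_eraseNone, Finset.mem_image]
    have hcard : F.card ≤ E.card + 1 := by
      have h1 : F.image Subtype.val ⊆ E.insertNone := by
        intro o ho
        obtain ⟨x, hx, rfl⟩ := Finset.mem_image.1 ho
        rw [Finset.mem_insertNone]
        intro y hy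
        exact (hmemE y).2 ⟨x, hx, Option.mem_def.1 hy⟩
      have h2 := Finset.card_le_card h1
      rw [Finset.card_image_of_injective _ Subtype.val_injective, Finset.card_insertNone] at h2
      exact h2
    obtain ⟨G, hG⟩ : ∃ G : ℚ[X], G = P - C j.1 * ∏ l, (X - C (r l)) ^ e l := ⟨_, rfl⟩
    have hG0 : G ≠ 0 := by
      intro h
      have h1 := congrArg (eval (r ⟨0, by omega⟩)) h
      rw [hG, eval_sub, eval_mul, eval_prod, Finset.prod_eq_zero (Finset.mem_univ ⟨0, by omega⟩),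
        mul_zero, sub_zero, eval_zero] at h1
      · exact hPr _ h1
      · rw [eval_pow, eval_sub, eval_X, eval_C, sub_self, zero_pow]
        have := he ⟨0, by omega⟩
        omega
    have hGdeg : G.natDegree ≤ ∑ l, e l := by
      rw [hG]
      refine (natDegree_sub_le _ _).trans (max_le hdeg ?_)
      refine (natDegree_C_mul_le _ _).trans ((natDegree_prod_le _ _).trans ?_)
      refine Finset.sum_le_sum fun l _ => ?_
      refine natDegree_pow_le.trans ?_
      rw [natDegree_X_sub_C, mul_one]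
    have hsub : E ⊆ G.roots.toFinset := by
      intro y hy
      obtain ⟨x, hx, hxy⟩ := (hmemE y).1 hy
      rw [Multiset.mem_toFinset, mem_roots hG0, IsRoot.def, hG, eval_sub, eval_mul, eval_C,
        eval_prod]
      have h1 : J P r e (some y) = j.1 := by
        rw [← hxy, ← hf, hF x hx]
      have h2 : P.eval y / ∏ l, (y - r l) ^ e l = j.1 := h1
      have hne : (∏ l, (y - r l) ^ e l) ≠ 0 := by
        refine Finset.prod_ne_zero_iff.2 fun l _ => pow_ne_zero _ (sub_ne_zero.2 ?_)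
        have h3 := (hoff x.1).1 x.2 l
        rw [hxy] at h3
        exact fun h => h3 (by rw [h])
      rw [div_eq_iff hne] at h2
      rw [h2, sub_eq_zero]
      congr 1
      refine Finset.prod_congr rfl fun l _ => ?_
      rw [eval_pow, eval_sub, eval_X, eval_C]
    have h1 := (Finset.card_le_card hsub).trans (Multiset.toFinset_card_le _)
    have h2 := card_roots' G
    omega
  · obtain ⟨p, hp, rfl⟩ := exists_vp v
    rw [Finset.mem_union]
    by_cases hpB : vp p hp ∈ toPr B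
    · exact Or.inr hpB
    · left
      refine mem_toPr.2 ⟨p, ?_, hp, rfl⟩
      refine Nat.mem_primeFactors.2 ⟨hp, ?_, (f x).1.den_nz⟩
      rw [hf]
      exact (key x p hp hpB).1 hv
  · obtain ⟨p, hpb, hp, rfl⟩ := mem_toPr.1 hv
    rw [Finset.mem_union]
    by_cases hpB : vp p hp ∈ toPr B
    · exact Or.inr hpB
    · left
      have h1 := Nat.dvd_of_mem_primeFactors hpb
      rw [hf] at h1
      exact (key x p hp hpB).2 h1

end Run7.h95.NT
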