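import Pool.Agent.Run7.h95.IP.Gen

/-!
# The ideals of the ring of integers of `ℚ` and the natural numbers
-/

set_option autoImplicit false

namespace Run7.h95.NT

open NumberField IsDedekindDomain Finset Filter Topology Pool.Agent.H691R3 Pool.Agent.TH876.Loc
open Run7.h283.UE Run7.h283.MO

/-- the ideal generated by a natural number -/
noncomputable def mk (m : ℕ) : Ideal (𝓞 ℚ) := Ideal.span {(m : 𝓞 ℚ)}

theorem absNorm_mk (m : ℕ) : Ideal.absNorm (mk m) = m := by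
  unfold mk
  rw [Ideal.absNorm_span_natCast, RingOfIntegers.rank, Module.finrank_self, pow_one]

theorem exists_mk (I : Ideal (𝓞 ℚ)) : ∃ m, I = mk m := by
  obtain ⟨r, hr⟩ : ∃ r : ℤ, I = Ideal.span {(r : 𝓞 ℚ)} := by
    have h1 := (IsPrincipalIdealRing.of_surjective (Rat.ringOfIntegersEquiv.symm : ℤ →+* 𝓞 ℚ)
      Rat.ringOfIntegersEquiv.symm.surjective).principal I
    obtain ⟨x, hx⟩ := h1.principal
    refine ⟨Rat.ringOfIntegersEquiv x, ?_⟩
    have h2 : ((Rat.ringOfIntegersEquiv x : ℤ) : 𝓞 ℚ) = x := by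
      apply Rat.ringOfIntegersEquiv.injective
      rw [map_intCast]
      simp
    rw [h2]
    exact hx
  refine ⟨r.natAbs, ?_⟩
  rw [hr]
  unfold mk
  rw [Ideal.span_singleton_eq_span_singleton]
  have h3 : ((r.natAbs : ℕ) : 𝓞 ℚ) = ((r.natAbs : ℤ) : 𝓞 ℚ) := (Int.cast_natCast _).symm
  rw [h3]
  have h4 : Associated r (r.natAbs : ℤ) := Int.associated_natAbs r
  exact h4.map (Int.castRingHom (𝓞 ℚ))

theorem mk_absNorm (I : Ideal (𝓞 ℚ)) : mk (Ideal.absNorm I) = I := by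
  obtain ⟨m, rfl⟩ := exists_mk I
  rw [absNorm_mk]

theorem mk_inj {a b : ℕ} (h : mk a = mk b) : a = b := by
  rw [← absNorm_mk a, h, absNorm_mk]

theorem mk_dvd {a b : ℕ} : mk a ∣ mk b ↔ a ∣ b := by
  constructor
  · rintro ⟨I, hI⟩
    refine ⟨Ideal.absNorm I, ?_⟩
    have h1 := congrArg Ideal.absNorm hI
    rwa [map_mul, absNorm_mk, absNorm_mk] at h1
  · rintro ⟨c, rfl⟩
    refine ⟨mk c, ?_⟩
    unfold mk
    rw [Ideal.span_singleton_mul_span_singleton, Nat.cast_mul]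

theorem mk_ne_bot {m : ℕ} (hm : m ≠ 0) : mk m ≠ ⊥ := by
  intro h
  have h1 := absNorm_mk m
  rw [h, Ideal.absNorm_bot] at h1
  exact hm h1.symm

/-- the prime ideal generated by a prime number -/
noncomputable def vp (p : ℕ) (hp : p.Prime) : Pr ℚ where
  asIdeal := mk p
  isPrime := by
    refine Ideal.isPrime_of_irreducible_absNorm ?_
    rw [absNorm_mk]
    exact hp
  ne_bot := mk_ne_bot hp.ne_zero

theorem Nv_vp {p : ℕ} (hp : p.Prime) : Nv (vp p hp) = p := by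
  show ((Ideal.absNorm (mk p) : ℕ) : ℝ) = p
  rw [absNorm_mk]

open Classical in
/-- the primes of a finite set of natural numbers -/
noncomputable def toPr (A : Finset ℕ) : Finset (Pr ℚ) :=
  (A.filter Nat.Prime).attach.image fun p => vp p.1 (Finset.mem_filter.1 p.2).2

theorem mem_toPr {A : Finset ℕ} {v : Pr ℚ} :
    v ∈ toPr A ↔ ∃ p ∈ A, ∃ hp : p.Prime, vp p hp = v := by
  classical
  unfold toPr
  rw [Finset.mem_image]
  constructor
  · rintro ⟨p, -, hp⟩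
    exact ⟨p.1, (Finset.mem_filter.1 p.2).1, (Finset.mem_filter.1 p.2).2, hp⟩
  · rintro ⟨p, hpA, hp, h⟩
    exact ⟨⟨p, Finset.mem_filter.2 ⟨hpA, hp⟩⟩, Finset.mem_attach _ _, h⟩

theorem vp_inj {p r : ℕ} {hp : p.Prime} {hr : r.Prime} (h : vp p hp = vp r hr) : p = r :=
  mk_inj (congrArg HeightOneSpectrum.asIdeal h)

theorem nn_toPr {A : Finset ℕ} (hA : ∀ p ∈ A, p.Prime) :
    nn (toPr A) = ((∏ p ∈ A, p : ℕ) : ℝ) := by
  classical
  unfold nn toPr
  rw [Finset.prod_image (by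
    intro p _ r _ h
    exact Subtype.ext (vp_inj h))]
  have h1 : ∀ p : {x // x ∈ A.filter Nat.Prime}, Nv (vp p.1 (Finset.mem_filter.1 p.2).2) =
      (p.1 : ℝ) := fun p => Nv_vp _
  simp only [h1]
  rw [Finset.prod_attach (A.filter Nat.Prime) (fun p => (p : ℝ)), Finset.filter_true_of_mem hA]
  push_cast
  rfl

theorem toPr_dvd {A : Finset ℕ} (hA : ∀ p ∈ A, p.Prime) {m : ℕ} :
    (∀ v ∈ toPr A, v.asIdeal ∣ mk m) ↔ ∀ p ∈ A, p ∣ m := by
  constructor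
  · intro h p hp
    have h1 : (vp p (hA p hp)).asIdeal ∣ mk m := h _ (mem_toPr.2 ⟨p, hp, hA p hp, rfl⟩)
    have h2 : mk p ∣ mk m := h1
    exact mk_dvd.1 h2
  · intro h v hv
    obtain ⟨p, hp, hpp, rfl⟩ := mem_toPr.1 hv
    have h2 : mk p ∣ mk m := mk_dvd.2 (h p hp)
    exact h2

theorem toPr_subset {A B : Finset ℕ} (h : A ⊆ B) : toPr A ⊆ toPr B := by
  intro v hv
  obtain ⟨p, hp, hpp, rfl⟩ := mem_toPr.1 hv
  exact mem_toPr.2 ⟨p, h hp, hpp, rfl⟩

theorem toPr_subset_iff {A B : Finset ℕ} (hA : ∀ p ∈ A, p.Prime) :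
    toPr A ⊆ toPr B ↔ A ⊆ B := by
  refine ⟨fun h p hp => ?_, toPr_subset⟩
  obtain ⟨r, hr, hrr, h1⟩ := mem_toPr.1 (h (mem_toPr.2 ⟨p, hp, hA p hp, rfl⟩))
  rw [← vp_inj h1]
  exact hr

open Classical in
theorem IF_eq (N : ℝ) : IF ℚ N = (Finset.Icc 1 ⌊N⌋₊).image mk := by
  ext I
  rw [mem_IF, Finset.mem_image]
  constructor
  · rintro ⟨h1, h2⟩
    refine ⟨Ideal.absNorm I, ?_, mk_absNorm I⟩
    rw [Finset.mem_Icc]
    have h3 : Ideal.absNorm I ≠ 0 := fun h => h1 (Ideal.absNorm_eq_zero_iff.1 h)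
    exact ⟨by omega, (Nat.le_floor_iff' h3).2 h2⟩
  · rintro ⟨m, hm, rfl⟩
    rw [Finset.mem_Icc] at hm
    have h3 : m ≠ 0 := by omega
    refine ⟨mk_ne_bot h3, ?_⟩
    rw [absNorm_mk]
    exact (Nat.le_floor_iff' h3).1 hm.2

theorem sum_IF (N : ℝ) (f : Ideal (𝓞 ℚ) → ℝ) :
    ∑ n ∈ IF ℚ N, f n = ∑ m ∈ Finset.Icc 1 ⌊N⌋₊, f (mk m) := by
  classical
  rw [IF_eq, Finset.sum_image]
  intro a _ b _ h
  exact mk_inj h

open Classical in
theorem card_IF (N : ℝ) (P : Ideal (𝓞 ℚ) → Prop) :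
    ((IF ℚ N).filter P).card = ((Finset.Icc 1 ⌊N⌋₊).filter fun m => P (mk m)).card := by
  rw [IF_eq, Finset.filter_image, Finset.card_image_of_injective]
  intro a b h
  exact mk_inj h

theorem cnt_eq (N : ℝ) : cnt ℚ N = ⌊N⌋₊ := by
  classical
  unfold cnt
  rw [IF_eq, Finset.card_image_of_injective]
  · rw [Nat.card_Icc]
    simp
  · intro a b h
    exact mk_inj h

/-- the set of the natural numbers with the property `P` has the natural density `δ` -/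
def NatDens (P : ℕ → Prop) (δ : ℝ) : Prop :=
  Tendsto (fun N : ℕ => ({m : ℕ | 1 ≤ m ∧ m ≤ N ∧ P m}.ncard : ℝ) / (N : ℝ)) atTop (𝓝 δ)

open Classical in
theorem natDens_eq (P : ℕ → Prop) (N : ℕ) : {m : ℕ | 1 ≤ m ∧ m ≤ N ∧ P m}.ncard =
    ((Finset.Icc 1 N).filter P).card := by
  rw [← Set.ncard_coe_finset]
  congr 1
  ext m
  simp only [Set.mem_ofPred_eq, Finset.coe_filter, Finset.mem_Icc]
  tauto

theorem natDens_of {P : Ideal (𝓞 ℚ) → Prop} {δ : ℝ} (h : HasDens ℚ P δ) :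
    NatDens (fun m => P (mk m)) δ := by
  classical
  unfold HasDens at h
  unfold NatDens
  have h1 := h.comp (tendsto_natCast_atTop_atTop (R := ℝ))
  refine h1.congr fun N => ?_
  simp only [Function.comp_apply]
  rw [card_IF, cnt_eq, Nat.floor_natCast, natDens_eq]

theorem NatDens.congr {P Q : ℕ → Prop} {δ : ℝ} (h : NatDens P δ)
    (hPQ : ∀ m, 1 ≤ m → (P m ↔ Q m)) : NatDens Q δ := by
  unfold NatDens at h ⊢
  refine h.congr fun N => ?_
  congr 3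
  ext m
  simp only [Set.mem_ofPred_eq]
  constructor
  · rintro ⟨h1, h2, h3⟩
    exact ⟨h1, h2, (hPQ m h1).1 h3⟩
  · rintro ⟨h1, h2, h3⟩
    exact ⟨h1, h2, (hPQ m h1).2 h3⟩

end Run7.h95.NT
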